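import Mathlib

/-!
# Definitions: Tverberg partitions with prescribed dimensions
-/

set_option autoImplicit false

namespace Pool.Agent.Y9.TV

/-- The face with the vertex set `σ` of the `N`-dimensional simplex, whose vertices are
`0, ..., N`. -/
def face {N : ℕ} (σ : Finset (Fin (N + 1))) : Set (stdSimplex ℝ (Fin (N + 1))) :=
  {x | ∀ i, i ∉ σ → x.1 i = 0}

/-- The map `f` has a Tverberg partition with faces of the dimensions `D i`: there are pairwise
disjoint nonempty sets `σ i` of vertices with `D i + 1` elements such that the images of the faces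
`σ i` have a point in common. -/
def HasPartition {N d r : ℕ} (f : stdSimplex ℝ (Fin (N + 1)) → EuclideanSpace ℝ (Fin d))
    (D : Fin r → ℤ) : Prop :=
  ∃ σ : Fin r → Finset (Fin (N + 1)), (∀ i, (σ i).Nonempty ∧ ((σ i).card : ℤ) - 1 = D i) ∧
    (∀ i j, i ≠ j → Disjoint (σ i) (σ j)) ∧ ∃ p, ∀ i, p ∈ f '' face (σ i)

/-- The tuple `D` is Tverberg prescribable in dimension `d`. -/
def Prescribable (d : ℕ) {r : ℕ} (D : Fin r → ℤ) : Prop :=
  ∃ N : ℕ, ∀ f : stdSimplex ℝ (Fin (N + 1)) → EuclideanSpace ℝ (Fin d), Continuous f →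
    HasPartition f D

/-- The tuple `D` is strongly admissible for `d`. -/
def StronglyAdmissible (d : ℕ) {r : ℕ} (D : Fin r → ℤ) : Prop :=
  (∀ i, ((r : ℚ) - 1) / r * ((d : ℚ) - 1) ≤ D i ∧ D i ≤ d) ∧ ∑ i, ((d : ℤ) - D i) ≤ d

end Pool.Agent.Y9.TV
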