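import Mathlib

set_option autoImplicit false
set_option linter.unusedSectionVars false
set_option linter.unusedVariables false

/-! Generic points. -/

namespace Pool.Agent.Y9.TV

open Module Set

/-- A finite union of sets of small dimension is not everything. -/
theorem avoid {W : Type} [NormedAddCommGroup W] [NormedSpace ℝ W] [FiniteDimensional ℝ W]
    {J : Type} [Finite J] (s : J → Set W) (h : ∀ j, dimH (s j) < finrank ℝ W) :
    ∃ w, ∀ j, w ∉ s j := by
  by_contra hno
  push Not at hno
  have h1 : (⋃ j, s j) = univ := by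
    rw [eq_univ_iff_forall]
    intro w
    obtain ⟨j, hj⟩ := hno w
    exact mem_iUnion.2 ⟨j, hj⟩
  obtain ⟨j0, -⟩ := hno 0
  have hne : Nonempty J := ⟨j0⟩
  have h2 : dimH (⋃ j, s j) = finrank ℝ W := by
    rw [h1]
    exact Real.dimH_univ_eq_finrank W
  rw [dimH_iUnion] at h2
  obtain ⟨j, hj⟩ := exists_eq_ciSup_of_finite (f := fun j => dimH (s j))
  rw [← hj] at h2
  exact (h j).ne h2

section

variable {N d r : ℕ}

/-- the space of all configurations -/
abbrev WW (N d : ℕ) : Type := Fin (N + 1) → EuclideanSpace ℝ (Fin d)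

theorem finrank_WW (N d : ℕ) : finrank ℝ (WW N d) = (N + 1) * d := by
  rw [finrank_pi_fintype]
  simp

/-- the first kind of bad configurations -/
def bad1 (L : Finset (Fin r)) (a : Fin r → Fin (N + 1)) (B : Fin r → Finset (Fin (N + 1))) :
    Set (WW N d) :=
  {v | ∃ (p : EuclideanSpace ℝ (Fin d)) (μ : Fin r → ℝ) (y : Fin r → Fin (N + 1) → ℝ),
    (∀ i, i ∉ L → μ i = 1 + ∑ b ∈ B i, y i b) ∧
    ∀ i, v (a i) = μ i • p - ∑ b ∈ B i, y i b • v b}

/-- the parameters of the first kind -/
abbrev P1 (d : ℕ) (L : Finset (Fin r)) (a : Fin r → Fin (N + 1))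
    (B : Fin r → Finset (Fin (N + 1))) : Type :=
  EuclideanSpace ℝ (Fin d) × (((i : Fin r) × ↥(B i)) → ℝ) × (↥L → ℝ) ×
    ({x : Fin (N + 1) // ∀ i, x ≠ a i} → EuclideanSpace ℝ (Fin d))

open Classical in
/-- the parametrisation -/
noncomputable def G1 (L : Finset (Fin r)) (a : Fin r → Fin (N + 1))
    (B : Fin r → Finset (Fin (N + 1))) (hB : ∀ i j, a j ∉ B i) (z : P1 d L a B) : WW N d := fun x =>
  if h : ∃ i, x = a i then
    (if h' : h.choose ∈ L then z.2.2.1 ⟨h.choose, h'⟩ else
      1 + ∑ b : ↥(B h.choose), z.2.1 ⟨h.choose, b⟩) • z.1 -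
      ∑ b : ↥(B h.choose), z.2.1 ⟨h.choose, b⟩ •
        z.2.2.2 ⟨b.1, fun j hj => hB h.choose j (hj ▸ b.2)⟩
  else z.2.2.2 ⟨x, fun i hi => h ⟨i, hi⟩⟩

theorem G1_smooth (L : Finset (Fin r)) (a : Fin r → Fin (N + 1))
    (B : Fin r → Finset (Fin (N + 1))) (hB : ∀ i j, a j ∉ B i) :
    ContDiff ℝ 1 (G1 (d := d) L a B hB) := by
  rw [contDiff_pi]
  intro x
  unfold G1
  by_cases h : ∃ i, x = a i
  · simp only [dif_pos h]
    by_cases h' : h.choose ∈ L
    · simp only [dif_pos h']
      fun_prop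
    · simp only [dif_neg h']
      fun_prop
  · simp only [dif_neg h]
    fun_prop

theorem finrank_P1 (L : Finset (Fin r)) (a : Fin r → Fin (N + 1)) (ha : Function.Injective a)
    (B : Fin r → Finset (Fin (N + 1))) :
    finrank ℝ (P1 d L a B) = d + (∑ i, (B i).card + (L.card + (N + 1 - r) * d)) := by
  classical
  have h1 : Fintype.card {x : Fin (N + 1) // ∀ i, x ≠ a i} = N + 1 - r := by
    have h2 : Fintype.card {x : Fin (N + 1) // ¬ ∃ i, x = a i} = N + 1 - r := by
      rw [Fintype.card_subtype_compl, Fintype.card_fin]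
      congr 1
      have h3 : Fintype.card {x : Fin (N + 1) // ∃ i, x = a i} = Fintype.card (Fin r) := by
        refine (Fintype.card_congr ?_).symm
        exact Equiv.ofBijective (fun i => ⟨a i, i, rfl⟩) ⟨fun i j h => ha (congrArg Subtype.val h),
          fun ⟨x, i, hi⟩ => ⟨i, Subtype.ext hi.symm⟩⟩
      rw [h3, Fintype.card_fin]
    rw [← h2]
    refine Fintype.card_congr (Equiv.subtypeEquivRight fun x => ?_)
    push Not
    rfl
  rw [finrank_prod, finrank_prod, finrank_prod, finrank_euclideanSpace_fin, finrank_pi, finrank_pi,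
    finrank_pi_fintype]
  simp only [finrank_euclideanSpace_fin, Finset.sum_const, Finset.card_univ, h1, smul_eq_mul,
    Fintype.card_sigma, Fintype.card_coe]

theorem bad1_small (L : Finset (Fin r)) (a : Fin r → Fin (N + 1)) (ha : Function.Injective a)
    (B : Fin r → Finset (Fin (N + 1))) (hB : ∀ i j, a j ∉ B i)
    (h : d + (∑ i, (B i).card + L.card) < r * d) : dimH (bad1 (d := d) L a B) < finrank ℝ (WW N d) := by
  classical
  have h1 : bad1 (d := d) L a B ⊆ range (G1 (d := d) L a B hB) := by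
    rintro v ⟨p, μ, y, h2, h3⟩
    refine ⟨(p, fun c => y c.1 c.2, fun i => μ i, fun x => v x), ?_⟩
    funext x
    unfold G1
    by_cases hx : ∃ i, x = a i
    · rw [dif_pos hx]
      have h4 := h3 hx.choose
      rw [← hx.choose_spec] at h4
      rw [h4]
      have e1 : ∑ b : ↥(B hx.choose), y hx.choose b • v b = ∑ b ∈ B hx.choose, y hx.choose b • v b :=
        Finset.sum_coe_sort (B hx.choose) fun b => y hx.choose b • v b
      have e2 : ∑ b : ↥(B hx.choose), y hx.choose b = ∑ b ∈ B hx.choose, y hx.choose b :=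
        Finset.sum_coe_sort (B hx.choose) fun b => y hx.choose b
      simp only [e1, e2]
      by_cases hL : hx.choose ∈ L
      · simp only [dif_pos hL]
      · simp only [dif_neg hL]
        rw [h2 _ hL]
    · rw [dif_neg hx]
  refine lt_of_le_of_lt (dimH_mono h1) (lt_of_le_of_lt (G1_smooth L a B hB).dimH_range_le ?_)
  rw [finrank_P1 L a ha, finrank_WW]
  have hr : r ≤ N + 1 := by
    have := Fintype.card_le_of_injective a ha
    rwa [Fintype.card_fin, Fintype.card_fin] at this
  have h5 : (N + 1) * d = r * d + (N + 1 - r) * d := by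
    rw [← add_mul]
    congr 1
    omega
  rw [h5]
  exact_mod_cast (by omega : d + (∑ i, (B i).card + (L.card + (N + 1 - r) * d)) <
    r * d + (N + 1 - r) * d)

/-- the second kind of bad configurations -/
def bad2 (a : Fin (N + 1)) (B : Finset (Fin (N + 1))) : Set (WW N d) :=
  {v | ∃ y : Fin (N + 1) → ℝ, v a = ∑ b ∈ B, y b • v b}

/-- the parameters of the second kind -/
abbrev P2 (d : ℕ) (a : Fin (N + 1)) (B : Finset (Fin (N + 1))) : Type :=
  (↥B → ℝ) × ({x : Fin (N + 1) // x ≠ a} → EuclideanSpace ℝ (Fin d))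

open Classical in
/-- the parametrisation -/
noncomputable def G2 (a : Fin (N + 1)) (B : Finset (Fin (N + 1))) (hB : a ∉ B) (z : P2 d a B) :
    WW N d := fun x =>
  if h : x = a then ∑ b : ↥B, z.1 b • z.2 ⟨b.1, fun hb => hB (hb ▸ b.2)⟩ else z.2 ⟨x, h⟩

theorem G2_smooth (a : Fin (N + 1)) (B : Finset (Fin (N + 1))) (hB : a ∉ B) :
    ContDiff ℝ 1 (G2 (d := d) a B hB) := by
  rw [contDiff_pi]
  intro x
  unfold G2
  by_cases h : x = a
  · simp only [dif_pos h]
    fun_prop
  · simp only [dif_neg h]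
    fun_prop

theorem bad2_small (a : Fin (N + 1)) (B : Finset (Fin (N + 1))) (hB : a ∉ B) (h : B.card < d) :
    dimH (bad2 (d := d) a B) < finrank ℝ (WW N d) := by
  classical
  have h1 : bad2 (d := d) a B ⊆ range (G2 (d := d) a B hB) := by
    rintro v ⟨y, h2⟩
    refine ⟨(fun b => y b, fun x => v x), ?_⟩
    funext x
    unfold G2
    by_cases hx : x = a
    · rw [dif_pos hx, hx, h2]
      exact Finset.sum_coe_sort B fun b => y b • v b
    · rw [dif_neg hx]
  refine lt_of_le_of_lt (dimH_mono h1) (lt_of_le_of_lt (G2_smooth a B hB).dimH_range_le ?_)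
  have h2 : Fintype.card {x : Fin (N + 1) // x ≠ a} = N := by
    rw [Fintype.card_subtype_compl]
    simp
  have h3 : finrank ℝ (P2 d a B) = B.card + N * d := by
    rw [finrank_prod, finrank_pi, finrank_pi_fintype]
    simp only [finrank_euclideanSpace_fin, Finset.sum_const, Finset.card_univ, h2, smul_eq_mul,
      Fintype.card_coe]
  rw [h3, finrank_WW]
  have h4 : (N + 1) * d = N * d + d := by ring
  rw [h4]
  exact_mod_cast (by omega : B.card + N * d < N * d + d)

end

end Pool.Agent.Y9.TV
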