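import Pool.Agent.Y9.TV.Gen
import Pool.Agent.Y9.TV.Defs

set_option autoImplicit false
set_option linter.unusedSectionVars false
set_option linter.unusedVariables false

/-! The map without Tverberg partitions. -/

namespace Pool.Agent.Y9.TV

open Module Set

/-! ### the truncation -/

/-- The coordinate number `m + 1` in decreasing order. -/
theorem exists_trunc (N m : ℕ) : ∃ t : (Fin (N + 1) → ℝ) → ℝ, Continuous t ∧
    ∀ x : Fin (N + 1) → ℝ, (∀ i, 0 ≤ x i) → (0 ≤ t x ∧
      (Finset.univ.filter fun i => t x < x i).card ≤ m ∧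
      ∀ σ : Finset (Fin (N + 1)), σ.card ≤ m → (∀ i, i ∉ σ → x i = 0) → t x = 0) := by
  classical
  by_cases hm : m + 1 ≤ N + 1
  · have hne : ((Finset.univ : Finset (Fin (N + 1))).powersetCard (m + 1)).attach.Nonempty := by
      rw [Finset.attach_nonempty_iff, Finset.powersetCard_nonempty]
      simpa using hm
    have hB : ∀ B : {B // B ∈ (Finset.univ : Finset (Fin (N + 1))).powersetCard (m + 1)},
        B.1.Nonempty := by
      rintro ⟨B, hB⟩
      rw [Finset.mem_powersetCard] at hB
      rw [← Finset.card_pos]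
      show 0 < B.card
      omega
    let t : (Fin (N + 1) → ℝ) → ℝ := fun x =>
      ((Finset.univ : Finset (Fin (N + 1))).powersetCard (m + 1)).attach.sup' hne fun B =>
        B.1.inf' (hB B) x
    refine ⟨t, ?_, fun x hx => ⟨?_, ?_, ?_⟩⟩
    · refine Continuous.finset_sup'_apply hne fun B _ => ?_
      refine Continuous.finset_inf'_apply (hB B) fun i _ => ?_
      exact continuous_apply i
    · obtain ⟨B, hBm⟩ := hne
      refine le_trans ?_ (Finset.le_sup' _ hBm)
      exact Finset.le_inf' _ _ fun i _ => hx i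
    · by_contra hlt
      push Not at hlt
      obtain ⟨B, hB1, hB2⟩ := Finset.exists_subset_card_eq (s := Finset.univ.filter fun i => t x < x i)
        (n := m + 1) (by omega)
      have hBm : B ∈ (Finset.univ : Finset (Fin (N + 1))).powersetCard (m + 1) :=
        Finset.mem_powersetCard.2 ⟨Finset.subset_univ _, hB2⟩
      have h1 : B.inf' (hB ⟨B, hBm⟩) x ≤ t x :=
        Finset.le_sup' (f := fun B : {B // B ∈ (Finset.univ : Finset (Fin (N + 1))).powersetCard
          (m + 1)} => B.1.inf' (hB B) x) (Finset.mem_attach _ ⟨B, hBm⟩)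
      obtain ⟨i, hi, h2⟩ := Finset.exists_mem_eq_inf' (hB ⟨B, hBm⟩) x
      have h3 := (Finset.mem_filter.1 (hB1 hi)).2
      simp only at h2
      rw [h2] at h1
      linarith
    · intro σ hσ hx0
      refine le_antisymm ?_ ?_
      · refine Finset.sup'_le _ _ fun B _ => ?_
        obtain ⟨i, hi, hiσ⟩ : ∃ i ∈ B.1, i ∉ σ := by
          by_contra hno
          push Not at hno
          have h1 := Finset.card_le_card (show B.1 ⊆ σ from hno)
          have h2 := (Finset.mem_powersetCard.1 B.2).2
          omega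
        rw [← hx0 i hiσ]
        exact Finset.inf'_le _ hi
      · obtain ⟨B, hBm⟩ := hne
        refine le_trans ?_ (Finset.le_sup' _ hBm)
        exact Finset.le_inf' _ _ fun i _ => hx i
  · refine ⟨fun _ => 0, continuous_const, fun x hx => ⟨le_rfl, ?_, fun _ _ _ => rfl⟩⟩
    refine (Finset.card_le_univ _).trans ?_
    rw [Fintype.card_fin]
    omega

/-! ### generic points -/

/-- **Generic points.** -/
theorem generic (N d r k : ℕ) (D : Fin r → ℕ) (h : d + ∑ i, min (D i) (k + 1) < r * d) :
    ∃ v : WW N d,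
      (∀ (a : Fin r → Fin (N + 1)) (B : Fin r → Finset (Fin (N + 1))), Function.Injective a →
        (∀ i j, a j ∉ B i) → (∀ i, (B i).card ≤ min (D i) k) →
        ∀ (p : EuclideanSpace ℝ (Fin d)) (μ : Fin r → ℝ) (y : Fin r → Fin (N + 1) → ℝ),
          (∀ i, D i ≤ k → μ i = 1 + ∑ b ∈ B i, y i b) →
          ¬ ∀ i, v (a i) = μ i • p - ∑ b ∈ B i, y i b • v b) ∧
      ∀ (a : Fin (N + 1)) (B : Finset (Fin (N + 1))), a ∉ B → B.card < d →
        ∀ y : Fin (N + 1) → ℝ, v a ≠ ∑ b ∈ B, y b • v b := by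
  classical
  let J1 : Type := {c : (Fin r → Fin (N + 1)) × (Fin r → Finset (Fin (N + 1))) //
    Function.Injective c.1 ∧ (∀ i j, c.1 j ∉ c.2 i) ∧ ∀ i, (c.2 i).card ≤ min (D i) k}
  let J2 : Type := {c : Fin (N + 1) × Finset (Fin (N + 1)) // c.1 ∉ c.2 ∧ c.2.card < d}
  have : Finite J1 := inferInstanceAs (Finite {c // _})
  have : Finite J2 := inferInstanceAs (Finite {c // _})
  let L : Finset (Fin r) := Finset.univ.filter fun i => k < D i
  let s : J1 ⊕ J2 → Set (WW N d) := fun j => match j with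
    | Sum.inl c => bad1 L c.1.1 c.1.2
    | Sum.inr c => bad2 c.1.1 c.1.2
  obtain ⟨v, hv⟩ := avoid s (by
    rintro (⟨c, h1, h2, h3⟩ | ⟨c, h1, h2⟩)
    · refine bad1_small L c.1 h1 c.2 h2 (lt_of_le_of_lt ?_ h)
      have h4 : L.card = ∑ i, if k < D i then 1 else 0 := by
        rw [Finset.card_filter]
      rw [h4, ← Finset.sum_add_distrib]
      refine Nat.add_le_add_left (Finset.sum_le_sum fun i _ => ?_) _
      have := h3 i
      split_ifs <;> omega
    · exact bad2_small c.1 c.2 h1 h2)
  refine ⟨v, ?_, ?_⟩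
  · intro a B h1 h2 h3 p μ y h4 h5
    refine hv (Sum.inl ⟨(a, B), h1, h2, h3⟩) ⟨p, μ, y, fun i hi => h4 i ?_, h5⟩
    by_contra hk
    exact hi (Finset.mem_filter.2 ⟨Finset.mem_univ _, by omega⟩)
  · intro a B h1 h2 y h3
    exact hv (Sum.inr ⟨(a, B), h1, h2⟩) ⟨y, h3⟩

/-! ### the map -/

/-- solve for one vector -/
theorem solve {N d : ℕ} {v : WW N d} {C : Finset (Fin (N + 1))} {z : Fin (N + 1) → ℝ}
    {p : EuclideanSpace ℝ (Fin d)} (hp : p = ∑ c ∈ C, z c • v c) {a : Fin (N + 1)} (ha : a ∈ C)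
    (hz : z a ≠ 0) : v a = (z a)⁻¹ • p - ∑ b ∈ C.erase a, (z b / z a) • v b := by
  classical
  have h1 : p = z a • v a + ∑ b ∈ C.erase a, z b • v b := by
    rw [hp, Finset.add_sum_erase C (fun c => z c • v c) ha]
  rw [h1, smul_add, smul_smul, inv_mul_cancel₀ hz, one_smul, Finset.smul_sum]
  have h2 : ∀ b ∈ C.erase a, (z a)⁻¹ • z b • v b = (z b / z a) • v b := by
    intro b _
    rw [smul_smul]
    congr 1
    field_simp
  rw [Finset.sum_congr rfl h2]
  abel

/-- **No partition.** -/
theorem no_partition (d r k : ℕ) (D : Fin r → ℕ) (i0 : Fin r) (hi0 : D i0 ≤ k) (hd : D i0 < d)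
    (h : d + ∑ i, min (D i) (k + 1) < r * d) (N : ℕ) :
    ∃ f : stdSimplex ℝ (Fin (N + 1)) → EuclideanSpace ℝ (Fin d), Continuous f ∧
      ¬ HasPartition f (fun i => (D i : ℤ)) := by
  classical
  obtain ⟨t, ht, ht'⟩ := exists_trunc N (k + 1)
  obtain ⟨v, hv1, hv2⟩ := generic N d r k D h
  refine ⟨fun x => ∑ i, max (x.1 i - t x.1) 0 • v i, ?_, ?_⟩
  · have h1 : Continuous fun x : stdSimplex ℝ (Fin (N + 1)) => t x.1 :=
      ht.comp continuous_subtype_val
    refine continuous_finsetSum _ fun i _ => Continuous.smul (Continuous.max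
      (Continuous.sub ?_ h1) continuous_const) continuous_const
    exact (continuous_apply i).comp continuous_subtype_val
  · rintro ⟨σ, h1, h2, p, h3⟩
    choose q hq hqp using h3
    have hcard : ∀ i, (σ i).card = D i + 1 := by
      intro i
      have h4 : ((σ i).card : ℤ) - 1 = (D i : ℤ) := (h1 i).2
      omega
    -- the coefficients
    let z : Fin r → Fin (N + 1) → ℝ := fun i c => max ((q i).1 c - t (q i).1) 0
    let C : Fin r → Finset (Fin (N + 1)) := fun i =>
      Finset.univ.filter fun c => t (q i).1 < (q i).1 c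
    have hq0 : ∀ i c, 0 ≤ (q i).1 c := fun i c => (q i).2.1 c
    have hC : ∀ i, C i ⊆ σ i := by
      intro i c hc
      by_contra hn
      have h4 := (Finset.mem_filter.1 hc).2
      rw [hq i c hn] at h4
      have := (ht' (q i).1 (hq0 i)).1
      linarith
    have hCk : ∀ i, (C i).card ≤ min (D i) k + 1 := by
      intro i
      have h4 := (ht' (q i).1 (hq0 i)).2.1
      have h5 := Finset.card_le_card (hC i)
      rw [hcard] at h5
      have h6 : (C i).card ≤ k + 1 := h4
      omega
    have hpz : ∀ i, p = ∑ c ∈ C i, z i c • v c := by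
      intro i
      rw [← hqp i]
      refine (Finset.sum_subset (Finset.subset_univ (C i)) fun c _ hc => ?_).symm
      have h4 : ¬ t (q i).1 < (q i).1 c := fun h5 => hc (Finset.mem_filter.2 ⟨Finset.mem_univ _, h5⟩)
      show max ((q i).1 c - t (q i).1) 0 • v c = 0
      rw [max_eq_right (by linarith), zero_smul]
    have ht0 : ∀ i, D i ≤ k → t (q i).1 = 0 := fun i hi =>
      (ht' (q i).1 (hq0 i)).2.2 (σ i) (by rw [hcard]; omega) (hq i)
    have hsum : ∀ i, D i ≤ k → ∑ c ∈ C i, z i c = 1 := by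
      intro i hi
      have h4 : ∑ c, (q i).1 c = 1 := (q i).2.2
      rw [← h4]
      have h5 : ∀ c, z i c = (q i).1 c := by
        intro c
        show max ((q i).1 c - t (q i).1) 0 = (q i).1 c
        rw [ht0 i hi, sub_zero, max_eq_left (hq0 i c)]
      rw [Finset.sum_congr rfl fun c _ => h5 c]
      refine Finset.sum_subset (Finset.subset_univ (C i)) fun c _ hc => ?_
      have h6 : ¬ t (q i).1 < (q i).1 c := fun h7 => hc (Finset.mem_filter.2 ⟨Finset.mem_univ _, h7⟩)
      rw [ht0 i hi] at h6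
      exact le_antisymm (not_lt.1 h6) (hq0 i c)
    -- the common point is not the origin
    have hp0 : p ≠ 0 := by
      intro hp0
      obtain ⟨a, ha, hza⟩ : ∃ a ∈ C i0, z i0 a ≠ 0 := by
        by_contra hno
        push Not at hno
        have h4 := hsum i0 hi0
        rw [Finset.sum_eq_zero hno] at h4
        exact zero_ne_one h4
      have h4 := solve (hpz i0) ha hza
      rw [hp0, smul_zero, zero_sub] at h4
      refine hv2 a ((C i0).erase a) (Finset.notMem_erase _ _) ?_ (fun b => -(z i0 b / z i0 a)) ?_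
      · rw [Finset.card_erase_of_mem ha]
        have := hCk i0
        have : 0 < (C i0).card := Finset.card_pos.2 ⟨a, ha⟩
        omega
      · rw [h4, ← Finset.sum_neg_distrib]
        refine Finset.sum_congr rfl fun b _ => ?_
        rw [neg_smul]
    have hex : ∀ i, ∃ a ∈ C i, z i a ≠ 0 := by
      intro i
      by_contra hno
      push Not at hno
      refine hp0 ?_
      rw [hpz i]
      refine Finset.sum_eq_zero fun c hc => ?_
      rw [hno c hc, zero_smul]
    choose a ha hza using hex
    have haσ : ∀ i, a i ∈ σ i := fun i => hC i (ha i)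
    refine hv1 a (fun i => (C i).erase (a i)) ?_ ?_ ?_ p (fun i => (z i (a i))⁻¹)
      (fun i b => z i b / z i (a i)) ?_ fun i => solve (hpz i) (ha i) (hza i)
    · intro i j hij
      by_contra hne
      exact Finset.disjoint_left.1 (h2 i j hne) (haσ i) (hij ▸ haσ j)
    · intro i j hmem
      by_cases hij : i = j
      · subst hij
        exact Finset.notMem_erase _ _ hmem
      · exact Finset.disjoint_left.1 (h2 i j hij) (hC i (Finset.mem_of_mem_erase hmem)) (haσ j)
    · intro i
      rw [Finset.card_erase_of_mem (ha i)]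
      have := hCk i
      have : 0 < (C i).card := Finset.card_pos.2 ⟨a i, ha i⟩
      omega
    · intro i hi
      have h4 := hsum i hi
      rw [← Finset.add_sum_erase (C i) (fun c => z i c) (ha i)] at h4
      have h5 : ∑ b ∈ (C i).erase (a i), z i b / z i (a i) =
          (∑ b ∈ (C i).erase (a i), z i b) / z i (a i) := by
        rw [Finset.sum_div]
      show (z i (a i))⁻¹ = 1 + ∑ b ∈ (C i).erase (a i), z i b / z i (a i)
      rw [h5]
      have h6 := hza i
      field_simp
      linarith

/-! ### tuples of integers -/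

/-- **Tuples that are not prescribable.** -/
theorem not_prescribable (d r : ℕ) (D : Fin r → ℤ) (i0 : Fin r)
    (h : (d : ℤ) < ∑ i, ((d : ℤ) - min (D i) (D i0 + 1))) : ¬ Prescribable d D := by
  rintro ⟨N, hN⟩
  -- the dimensions are not negative
  by_cases hneg : ∃ i, D i < 0
  · obtain ⟨i, hi⟩ := hneg
    obtain ⟨σ, h1, -, -⟩ := hN (fun _ => 0) continuous_const
    have h2 := h1 i
    have h3 : 0 < (σ i).card := Finset.card_pos.2 h2.1
    omega
  push Not at hneg
  obtain ⟨E, hE⟩ : ∃ E : Fin r → ℕ, ∀ i, D i = E i := ⟨fun i => (D i).toNat, fun i =>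
    (Int.toNat_of_nonneg (hneg i)).symm⟩
  have hDE : D = fun i => (E i : ℤ) := funext hE
  -- a small dimension
  obtain ⟨i1, hi1, hi1d⟩ : ∃ i1, E i1 ≤ E i0 ∧ E i1 < d := by
    by_contra hno
    push Not at hno
    have h2 := hno i0 le_rfl
    have h3 : ∀ i, (d : ℤ) - min (D i) (D i0 + 1) ≤ 0 := by
      intro i
      rw [hE i, hE i0]
      by_cases h4 : E i ≤ E i0
      · have := hno i h4
        omega
      · omega
    have h4 := Finset.sum_nonpos fun i (_ : i ∈ Finset.univ) => h3 i
    omega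
  have h2 : d + ∑ i, min (E i) (E i0 + 1) < r * d := by
    have h3 : ∑ i, ((d : ℤ) - min (D i) (D i0 + 1)) =
        (r : ℤ) * d - ((∑ i, min (E i) (E i0 + 1) : ℕ) : ℤ) := by
      rw [Finset.sum_sub_distrib]
      simp only [Finset.sum_const, Finset.card_univ, Fintype.card_fin, nsmul_eq_mul]
      congr 1
      push_cast
      refine Finset.sum_congr rfl fun i _ => ?_
      rw [hE i, hE i0]
    rw [h3] at h
    have h4 : ((r * d : ℕ) : ℤ) = (r : ℤ) * d := by push_cast; rfl
    omega
  obtain ⟨f, hf, hno⟩ := no_partition d r (E i0) E i1 hi1 hi1d h2 N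
  rw [hDE] at hN
  exact hno (hN f hf)

/-- **Strongly admissible tuples that are not prescribable.** -/
theorem strongly_admissible_bad (d r : ℕ) (hrd : r < d) (h1 : 1 ≤ d % r) (h2 : d % r + 2 ≤ r) :
    ∃ D : Fin r → ℤ, (∀ i, D i = d ∨ D i = d - (d / r + 1)) ∧ StronglyAdmissible d D ∧
      ¬ Prescribable d D := by
  obtain ⟨q, hq⟩ : ∃ q, q = d / r := ⟨_, rfl⟩
  obtain ⟨s, hs⟩ : ∃ s, s = d % r := ⟨_, rfl⟩
  rw [← hs] at h1 h2
  have hd : d = r * q + s := by rw [hq, hs]; exact (Nat.div_add_mod d r).symm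
  have hq1 : 1 ≤ q := by
    rcases Nat.eq_zero_or_pos q with h | h
    · rw [h, Nat.mul_zero] at hd
      omega
    · exact h
  have hrq : 3 * q ≤ r * q := Nat.mul_le_mul_right _ (by omega)
  have hsum : ∀ a b : ℤ, ∑ i : Fin r, (if (i : ℕ) ≤ s then a else b) =
      (s + 1) * a + (r - (s + 1)) * b := by
    intro a b
    rw [Fin.sum_univ_eq_sum_range (fun i => if i ≤ s then a else b) r]
    obtain ⟨u, hu⟩ : ∃ u, r = (s + 1) + u := ⟨r - (s + 1), by omega⟩
    rw [hu, Finset.sum_range_add]
    have e1 : ∑ i ∈ Finset.range (s + 1), (if i ≤ s then a else b) = (s + 1) * a := by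
      rw [Finset.sum_congr rfl fun i hi => if_pos (by
        have := Finset.mem_range.1 hi
        omega)]
      simp
    have e2 : ∑ i ∈ Finset.range u, (if (s + 1) + i ≤ s then a else b) = u * b := by
      rw [Finset.sum_congr rfl fun i hi => if_neg (by omega)]
      simp
    rw [e1, e2]
    push_cast
    ring
  refine ⟨fun i => if (i : ℕ) ≤ s then (d : ℤ) - (q + 1) else d, fun i => ?_, ⟨fun i => ?_, ?_⟩, ?_⟩
  · have e0 : (d : ℤ) / (r : ℤ) = (q : ℤ) := by
      rw [hq]
      norm_cast
    rw [e0]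
    by_cases hi : (i : ℕ) ≤ s
    · right
      simp only [if_pos hi]
    · left
      simp only [if_neg hi]
  · have hr0 : (0 : ℚ) < r := by exact_mod_cast (by omega : 0 < r)
    have hbound : ((r : ℚ) - 1) / r * ((d : ℚ) - 1) ≤ (d : ℚ) - (q + 1) := by
      rw [div_mul_eq_mul_div, div_le_iff₀ hr0]
      have hdq : (d : ℚ) = r * q + s := by exact_mod_cast hd
      have hs1 : (1 : ℚ) ≤ s := by exact_mod_cast h1
      rw [hdq]
      nlinarith
    have hq0 : (0 : ℚ) ≤ q := by positivity
    by_cases hi : (i : ℕ) ≤ s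
    · simp only [if_pos hi]
      push_cast
      refine ⟨hbound, ?_⟩
      omega
    · simp only [if_neg hi]
      push_cast
      refine ⟨hbound.trans (by linarith), le_rfl⟩
  · have e1 : ∀ i : Fin r, (d : ℤ) - (if (i : ℕ) ≤ s then (d : ℤ) - (q + 1) else d) =
        if (i : ℕ) ≤ s then (q : ℤ) + 1 else 0 := by
      intro i
      split_ifs <;> ring
    rw [Finset.sum_congr rfl fun i _ => e1 i, hsum]
    obtain ⟨u, hu⟩ : ∃ u, r = s + 2 + u := ⟨r - (s + 2), by omega⟩
    have e2 : (d : ℤ) = (s + 2 + u) * q + s := by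
      rw [hd, hu]
      push_cast
      ring
    rw [e2]
    have e3 : (0 : ℤ) ≤ u * q := by positivity
    have e4 : (1 : ℤ) ≤ q := by exact_mod_cast hq1
    nlinarith
  · refine not_prescribable d r _ ⟨0, by omega⟩ ?_
    simp only
    rw [if_pos (Nat.zero_le s)]
    have e1 : ∀ i : Fin r, (d : ℤ) - min (if (i : ℕ) ≤ s then (d : ℤ) - (q + 1) else d)
        ((d : ℤ) - (q + 1) + 1) = if (i : ℕ) ≤ s then (q : ℤ) + 1 else q := by
      intro i
      split_ifs
      · rw [min_eq_left (by omega)]
        ring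
      · rw [min_eq_right (by omega)]
        ring
    rw [Finset.sum_congr rfl fun i _ => e1 i, hsum]
    have e2 : (d : ℤ) = r * q + s := by exact_mod_cast hd
    rw [e2]
    nlinarith

end Pool.Agent.Y9.TV
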